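import Mathlib
import Pool.Agent.T6.H81.BG.Fin3
import Pool.Agent.T6.H81.BG.L3
import Pool.Agent.T6.H81.BG.R3
import Pool.Agent.T6.H81.BG.B3
import Pool.Agent.T6.H81.BG.C3
import Pool.Agent.T6.H81.BG.P3
import Pool.Agent.T6.H81.BG.H3
import Pool.Agent.T6.H81.BG.W3
import Pool.Agent.T6.H81.BG.Z3
import Pool.Agent.T6.H81.BG.S3
import Pool.Agent.T6.H81.BG.S4
import Pool.Agent.T6.H81.BG.S6
import Pool.Agent.T6.H81.BG.S7
import Pool.Agent.T6.H81.BG.S8
import Pool.Agent.T6.H81.BH.Fin4
import Pool.Agent.T6.H81.BH.Z0
import Pool.Agent.T6.H81.BH.Pol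
import Pool.Agent.T6.H81.BH.CH1
import Pool.Agent.T6.H81.BH.S6G

/-!
The asymptotic formula `c B (log B) ^ m` for the number of ALL rational points of bounded
anticanonical height, and for the number of those in any open subset, with the same constant `c`,
for all adelic heights, on the anisotropic complete intersections `X` of `K` multilinear divisors
in a product of `m + 1` projective spaces over the rational numbers, for all `m` and `K`.

* `Pt n`: points with integer coordinates, one vector `x v` of length `n v` for each block `v`.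
* `F e`, `e < K`: integer polynomials, homogeneous of degree `d e v ≤ 1` in the coordinates of the
  block `v` (`MultiDeg (F e) (d e)`); `Zr F x`: the point `x` satisfies the equations, which means
  that it is a point of `X`. The block `v` is contained in `k v = ∑ e, d e v` of the equations.
* `cf F e v x`: the vector of the coefficients of `F e` as a linear form in the coordinates of the
  block `v`, the other coordinates being those of `x`.
* The hypothesis `hA` (anisotropic): for each block `v` and each rational point `x` of the product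
  of the projective spaces, the forms `cf F e v x` of the `k v` equations with `d e v = 1` are
  linearly independent. It is a condition at the rational points only; it holds if it holds for the
  points over one field of `p`-adic numbers. For equations of type `(1, …, 1)` and `n v = N` it
  holds for example if `F e` is congruent modulo a prime number `p` to the form
  `Tr (s_e x_0 ⋯ x_m)`, where the `x_v` are in the field with `p ^ N` elements and the `s_e` in
  this field are linearly independent over the field with `p` elements. So the hypothesis holds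
  for a positive proportion of the systems of `K` equations of type `(1, …, 1)`, and among these
  are smooth ones.
* `LFs X φ`: `φ` is a positive continuous function on the points over `K`, the real or the `p`-adic
  numbers, of the variety `X`. `Phs ψ S φ x` is the product of `ψ` and the `φ p`, `p ∈ S`, at the
  point. The anticanonical bundle of `X` is the restriction of `O(n v - k v)_v`, so that the heights
  defined by adelic metrics on it are the functions `∏ v, H(x v) ^ (n v - k v) * Phs ψ S φ x`,
  `H` the naive height.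
* Rational points of the projective spaces are given by normalised primitive integer vectors
  (`Rep`).
* `G`: any polynomial which does not vanish identically on the set of the complex points of `X`
  where the forms `cf F e v z` of each block are linearly independent (by `hA` this open subset of
  `X` contains all rational points of `X`). With `G = 1` all rational points of `X` are counted.
-/

namespace Pool.Agent.Results.MP_1acd66_nt.MultilinearAnisotropic

open Pool.Agent.H548.WM (Rep ht)
open Pool.Agent.H548.TL (evz)
open Pool.Agent.T6.H5.TW (MultiDeg fl)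
open Pool.Agent.T6.H81.BG (Pt Zr cf LFs Phs)
open Filter Topology

theorem result {m K : ℕ} {n : Fin (m + 1) → ℕ} (F : Fin K → MvPolynomial (Σ i, Fin (n i)) ℤ)
    (d : Fin K → Fin (m + 1) → ℕ) (hd : ∀ e v, d e v ≤ 1) (hF : ∀ e, MultiDeg (F e) (d e))
    (hne : ∀ e, ∃ v, d e v = 1) (hn : ∀ v, ∑ e, d e v + 2 ≤ n v)
    (hk : ∀ v, ∑ e, d e v * ∑ u, d e u + 1 ≤ n v)
    (hA : ∀ v, ∀ x : Pt n, (∀ u, x u ≠ 0) →
      LinearIndependent ℤ (fun e : {e : Fin K // d e v = 1} => cf F e.1 v x))
    (ψ : (∀ v, Fin (n v) → ℝ) → ℝ) (S : Finset Nat.Primes)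
    (φ : ∀ p : Nat.Primes, (∀ v, Fin (n v) → ℚ_[p]) → ℝ) (hψ : LFs {x | Zr F x} ψ)
    (hφ : ∀ p ∈ S, LFs {x | Zr F x} (φ p)) :
    ∃ c : ℝ, 0 < c ∧ ∀ G : MvPolynomial (Σ i, Fin (n i)) ℤ,
      (∃ z : ∀ i, Fin (n i) → ℂ, (∀ v, z v ≠ 0) ∧ Zr F z ∧
        (∀ v, LinearIndependent ℂ (fun e : {e : Fin K // d e v = 1} => cf F e.1 v z)) ∧
        evz G (fl z) ≠ 0) →
      Tendsto (fun B : ℝ => ({x : Pt n | (∀ v, Rep (x v)) ∧ Zr F x ∧ evz G (fl x) ≠ 0 ∧
        (∏ v, (ht (x v) : ℝ) ^ (n v - ∑ e, d e v)) * Phs ψ S φ x ≤ B}.ncard : ℝ) /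
          (B * Real.log B ^ m)) atTop (𝓝 c) :=
  Pool.Agent.T6.H81.BH.t1o Pool.Agent.T6.H81.BG.b3
    (Pool.Agent.T6.H81.BG.c3 (Pool.Agent.T6.H81.BG.r3 Pool.Agent.T6.H81.BG.l3))
    Pool.Agent.T6.H81.BG.p3 Pool.Agent.T6.H81.BG.h3 Pool.Agent.T6.H81.BG.w3
    (Pool.Agent.T6.H81.BG.r3 Pool.Agent.T6.H81.BG.l3)
    Pool.Agent.T6.H81.BG.z3 Pool.Agent.T6.H81.BG.s3 Pool.Agent.T6.H81.BG.s4
    Pool.Agent.T6.H81.BG.s6 Pool.Agent.T6.H81.BG.s7 Pool.Agent.T6.H81.BG.s8
    Pool.Agent.T6.H81.BH.z0 Pool.Agent.T6.H81.BH.pol Pool.Agent.T6.H81.BH.ch1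
    Pool.Agent.T6.H81.BH.s6G F d hd hF hne hn hk hA ψ S φ hψ hφ

end Pool.Agent.Results.MP_1acd66_nt.MultilinearAnisotropic
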