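import Mathlib
import Pool.Agent.T6.H81.BG.L3
import Pool.Agent.T6.H81.BG.R3
import Pool.Agent.T6.H81.BG.C3
import Pool.Agent.T6.H81.BG.P3
import Pool.Agent.T6.H81.BG.H3
import Pool.Agent.T6.H81.BG.W3
import Pool.Agent.T6.H81.BG.Z3
import Pool.Agent.T6.H81.BG.S6
import Pool.Agent.T6.H81.BG.S8
import Pool.Agent.T6.H81.BH.Z0
import Pool.Agent.T6.H81.BH.Pol
import Pool.Agent.T6.H81.BH.S6G
import Pool.Agent.T6.H81.BJ.GP
import Pool.Agent.T6.H81.BJ.HC
import Pool.Agent.T6.H81.BJ.WJ
import Pool.Agent.T6.H81.BJ.BD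
import Pool.Agent.T6.H81.BJ.BX
import Pool.Agent.T6.H81.BJ.MR0
import Pool.Agent.T6.H81.BJ.NE
import Pool.Agent.T6.H81.BJ.GX
import Pool.Agent.T6.H81.BJ.Fin9
import Pool.Agent.T6.H81.BJ.Ne2

/-!
The asymptotic formula `c B log B` for the number of rational points of bounded anticanonical
height, for all adelic heights, on every dense open subset `V` of an open subset `U`, with the same
constant `c` for all `V`, for ALL SMOOTH complete intersections `X` of `k ≥ 1` divisors of type
`(1, 1)` in products of two projective spaces of dimensions at least `2 k` over the rational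
numbers.

* `Pt n`: points with integer coordinates, one vector `x v` of length `n v ≥ 2 k + 1` for each of
  the two blocks `v`.
* `F e`, `e < k`: integer polynomials, homogeneous of degree one in the coordinates of each of the
  two blocks (`MultiDeg (F e) (fun _ => 1)`); `Zr F x`: the point `x` is on `X`.
* `cf F e v x`: the vector of the coefficients of `F e` as a linear form in the coordinates of the
  block `v`, the other coordinates being those of `x`, that is the gradient of `F e` in the
  coordinates of the block `v`.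
* `hsm`: `X` is a smooth complete intersection (Jacobian criterion at the complex points: the
  gradients of the `k` equations, in all coordinates, are linearly independent).
* `U`: the points of `X` where the `k` gradients in the coordinates of the block `v` are linearly
  independent, for both blocks `v`. (The projections of `X` to the two factors are bundles of
  projective spaces of dimension `n v - k - 1` over the images of `U`, and over the other points
  the fibres are bigger projective spaces. The points of these fibres are to be left out in the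
  conjecture.)
* `G`: any polynomial which is not zero at some complex point of `U`. The first part of the theorem:
  `U` has a complex point, so that `G = 1` is allowed.
* `LFs X φ`: `φ` is a positive continuous function on the points over `K`, the real or the `p`-adic
  numbers, of the variety `X`. `Phs ψ S φ x` is the product of `ψ` and the `φ p`, `p ∈ S`, at the
  point. The anticanonical bundle of `X` is the restriction of `O(n v - k)_v`, so that the heights
  defined by adelic metrics on it are the functions `∏ v, H(x v) ^ (n v - k) * Phs ψ S φ x`,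
  `H` the naive height.
* Rational points of the projective spaces are given by normalised primitive integer vectors
  (`Rep`).
-/

namespace Pool.Agent.Results.MP_1acd66_nt.SmoothBilinear

open Pool.Agent.H548.WM (Rep ht)
open Pool.Agent.H548.TL (evz)
open Pool.Agent.T6.H5.TW (MultiDeg fl)
open Pool.Agent.T6.H81.BG (Pt Zr cf LFs Phs)
open Filter Topology

theorem result {k : ℕ} {n : Fin 2 → ℕ} (hk : 1 ≤ k) (hn : ∀ v, 2 * k + 1 ≤ n v)
    (F : Fin k → MvPolynomial (Σ i, Fin (n i)) ℤ) (hF : ∀ e, MultiDeg (F e) (fun _ => 1))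
    (hsm : ∀ z : ∀ v, Fin (n v) → ℂ, (∀ v, z v ≠ 0) → Zr F z →
      LinearIndependent ℂ (fun (e : Fin k) (v : Fin 2) => cf F e v z))
    (ψ : (∀ v, Fin (n v) → ℝ) → ℝ) (S : Finset Nat.Primes)
    (φ : ∀ p : Nat.Primes, (∀ v, Fin (n v) → ℚ_[p]) → ℝ) (hψ : LFs {x | Zr F x} ψ)
    (hφ : ∀ p ∈ S, LFs {x | Zr F x} (φ p)) :
    (∃ z : ∀ i, Fin (n i) → ℂ, Zr F z ∧ ∀ v, LinearIndependent ℂ (fun e => cf F e v z)) ∧
    ∃ c : ℝ, 0 < c ∧ ∀ G : MvPolynomial (Σ i, Fin (n i)) ℤ,
      (∃ z : ∀ i, Fin (n i) → ℂ, Zr F z ∧ (∀ v, LinearIndependent ℂ (fun e => cf F e v z)) ∧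
        evz G (fl z) ≠ 0) →
      Tendsto (fun B : ℝ => ({x : Pt n | (∀ v, Rep (x v)) ∧ Zr F x ∧
        (∀ v, LinearIndependent ℤ (fun e => cf F e v x)) ∧ evz G (fl x) ≠ 0 ∧
        (∏ v, (ht (x v) : ℝ) ^ (n v - k)) * Phs ψ S φ x ≤ B}.ncard : ℝ) /
          (B * Real.log B)) atTop (𝓝 c) :=
  ⟨Pool.Agent.T6.H81.BJ.nonempty_U Pool.Agent.T6.H81.BJ.mR0 Pool.Agent.T6.H81.BJ.nE hk hn F hF
      hsm,
    Pool.Agent.T6.H81.BJ.Fin9.main
    (Pool.Agent.T6.H81.BG.c3 (Pool.Agent.T6.H81.BG.r3 Pool.Agent.T6.H81.BG.l3))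
    Pool.Agent.T6.H81.BG.p3 Pool.Agent.T6.H81.BG.h3 Pool.Agent.T6.H81.BG.w3
    (Pool.Agent.T6.H81.BG.r3 Pool.Agent.T6.H81.BG.l3)
    Pool.Agent.T6.H81.BG.z3 Pool.Agent.T6.H81.BG.s6 Pool.Agent.T6.H81.BG.s8
    Pool.Agent.T6.H81.BH.z0 Pool.Agent.T6.H81.BH.pol Pool.Agent.T6.H81.BH.s6G
    (Pool.Agent.T6.H81.BJ.bD (Pool.Agent.T6.H81.BJ.wJ Pool.Agent.T6.H81.BJ.gP
      Pool.Agent.T6.H81.BJ.hC))
    Pool.Agent.T6.H81.BJ.bX Pool.Agent.T6.H81.BJ.mR0 Pool.Agent.T6.H81.BJ.nE
    (Pool.Agent.T6.H81.BJ.gX Pool.Agent.T6.H81.BJ.gP Pool.Agent.T6.H81.BJ.hC)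
    hk hn F hF hsm ψ S φ hψ hφ⟩

end Pool.Agent.Results.MP_1acd66_nt.SmoothBilinear
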