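import Mathlib
import Pool.Agent.T6.H81.BG.L3
import Pool.Agent.T6.H81.BG.R3
import Pool.Agent.T6.H81.BG.B3
import Pool.Agent.T6.H81.BG.C3
import Pool.Agent.T6.H81.BG.P3
import Pool.Agent.T6.H81.BG.H3
import Pool.Agent.T6.H81.BG.W3
import Pool.Agent.T6.H81.BG.Z3
import Pool.Agent.T6.H81.BG.S3
import Pool.Agent.T6.H81.BG.S6
import Pool.Agent.T6.H81.BG.S8
import Pool.Agent.T6.H81.BH.Z0
import Pool.Agent.T6.H81.BH.Pol
import Pool.Agent.T6.H81.BH.S6G
import Pool.Agent.T6.H81.BJ.GP
import Pool.Agent.T6.H81.BJ.HC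
import Pool.Agent.T6.H81.BN.LC
import Pool.Agent.T6.H81.BN.BB
import Pool.Agent.T6.H81.BN.NI
import Pool.Agent.T6.H81.BN.CH5
import Pool.Agent.T6.H81.BN.WL
import Pool.Agent.T6.H81.BN.PM
import Pool.Agent.T6.H81.BN.BPQ
import Pool.Agent.T6.H81.BN.SS
import Pool.Agent.T6.H81.BO.PC
import Pool.Agent.T6.H81.BO.PG
import Pool.Agent.T6.H81.BO.BPS
import Pool.Agent.T6.H81.BO.SEG
import Pool.Agent.T6.H81.BO.SR3
import Pool.Agent.T6.H81.BO.Fin15

/-!
The asymptotic formula `c B (log B) ^ m` for the number of rational points of bounded anticanonical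
height, for all adelic heights, on every dense open subset `V` of an open subset `U`, with the same
constant `c` for all `V`, for smooth complete intersections `X` of `K` multilinear divisors in
products of `m + 1` projective spaces over the rational numbers. In particular for ALL SMOOTH
complete intersections of `K` divisors of type `(1, 1)` in two of the factors or `(1, 1, 1)` in
three of the factors, if all divisors which contain two given factors are of type `(1, 1)`, or
contain at most one third factor, and the dimensions are large compared with the number of the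
divisors.

* `Pt n`: points with integer coordinates, one vector `x v` of length `n v` for each block `v`.
* `F e`, `e < K`: integer polynomials, homogeneous of degree `d e v ≤ 1` in the coordinates of the
  block `v` (`MultiDeg (F e) (d e)`), containing at least two blocks (`hd2`); `Zr F x`: the point
  `x` satisfies the equations, which means that it is a point of `X`. The block `v` is contained in
  `k v = ∑ e, d e v` of the equations; `s v = ∑ e, d e v * ∑ i, d e i` is the sum of the numbers of
  the blocks of these equations.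
* `cf F e v x`: the vector of the coefficients of `F e` as a linear form in the coordinates of the
  block `v` (`d e v = 1`), the other coordinates being those of `x`, that is the gradient of `F e`
  in the coordinates of the block `v`; if `d e v = 0` and `F e` vanishes at `x`, it is zero.
  `mfR (F e) u v x`: the matrix of `F e` as a bilinear form in the blocks `u` and `v`.
* `hsm`: `X` is a smooth complete intersection (Jacobian criterion at the complex points: the
  gradients of the `K` equations, in all coordinates, are linearly independent).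
* `hp`: for two different blocks `u` and `v` with a common equation, one of the following holds.
  (a) All common equations contain only these two blocks, so that they are of type `(1, 1)`, and
  `n u` and `n v` are at least `k u + s v + 1`. (b) All common equations are inside `{u, v, w}`, for
  a block `w` different from `u` and `v`, and with `R = k u + s v` we have `R + k u ≤ n u`,
  `R + k v ≤ n v` and `2 R + n w + j ≤ n u + n v + 1`, where `j` is the number of the equations
  inside `{u, v, w}`. (c) All nonzero linear combinations of the common equations, as bilinear forms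
  in the blocks `u` and `v`, have at least the rank `k u + s v`, for all complex values of the other
  blocks.
* `U`: the points of `X` where for each block `v` the gradients `cf F e v x` of the equations which
  contain `v` are linearly independent. The first part of the theorem: `U` has a complex point.
* `G`: any polynomial which is not zero at some complex point of `U`.
* `LFs X φ`: `φ` is a positive continuous function on the points over `K`, the real or the `p`-adic
  numbers, of the variety `X`. `Phs ψ S φ x` is the product of `ψ` and the `φ p`, `p ∈ S`, at the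
  point. The anticanonical bundle of `X` is the restriction of `O(n v - k v)_v`, so that the heights
  defined by adelic metrics on it are the functions `∏ v, H(x v) ^ (n v - k v) * Phs ψ S φ x`,
  `H` the naive height.
* Rational points of the projective spaces are given by normalised primitive integer vectors
  (`Rep`).

Examples. (1) Three factors, `m = 2`: all smooth complete intersections of `K ≥ 1` divisors, each of
type `(1, 1, 1)`, `(1, 1, 0)`, `(1, 0, 1)` or `(0, 1, 1)`, with `n w + 9 K ≤ n u + n v + 1` for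
`{u, v, w} = {0, 1, 2}`. Here (b) holds for all pairs: `k u ≤ K`, `s v ≤ 3 K`, `j ≤ K`.
(2) Multigraphs: the blocks are the vertices of a graph, multiple edges allowed, and for each edge
`e = {u, v}` there is an equation `x_u ᵀ M_e x_v = 0`; `X` is any smooth complete intersection of
this kind with `n u, n v ≥ k u + 2 k v + 1` for neighbours `u`, `v`. (3) Partial Steiner triple
systems: the equations are of type `(1, 1, 1)` in triples of blocks, two of which have at most one
common block, and `n u + n v ≥ n w + 2 k u + 6 k v` for each of these triples `{u, v, w}`, with `u`,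
`v`, `w` in any order; `X` is any smooth complete intersection of this kind.
-/

namespace Pool.Agent.Results.MP_1acd66_nt.SmoothMultilinear

open Pool.Agent.H548.WM (Rep ht)
open Pool.Agent.H548.TL (evz)
open Pool.Agent.T6.H5.TW (MultiDeg fl)
open Pool.Agent.T6.H81.BG (Pt Zr cf LFs Phs)
open Pool.Agent.T6.H81.BO (mfR)
open Filter Topology

theorem result {m K : ℕ} {n : Fin (m + 1) → ℕ} (F : Fin K → MvPolynomial (Σ i, Fin (n i)) ℤ)
    (d : Fin K → Fin (m + 1) → ℕ) (hd1 : ∀ e v, d e v ≤ 1) (hF : ∀ e, MultiDeg (F e) (d e))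
    (hd2 : ∀ e, 2 ≤ ∑ v, d e v) (hn0 : ∀ v, 2 ≤ n v)
    (hp : ∀ u v, u ≠ v → ∀ e, d e u = 1 → d e v = 1 →
      ((∀ e, d e u = 1 → d e v = 1 → ∑ i, d e i = 2) ∧
        ∑ e, d e u + ∑ e, d e v * ∑ i, d e i + 1 ≤ n u ∧
        ∑ e, d e u + ∑ e, d e v * ∑ i, d e i + 1 ≤ n v) ∨
      (∃ w, u ≠ w ∧ v ≠ w ∧
        (∀ e, d e u = 1 → d e v = 1 → ∀ i, d e i ≠ 0 → i = u ∨ i = v ∨ i = w) ∧
        ∑ e, d e u + ∑ e, d e v * ∑ i, d e i + ∑ e, d e u ≤ n u ∧
        ∑ e, d e u + ∑ e, d e v * ∑ i, d e i + ∑ e, d e v ≤ n v ∧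
        2 * (∑ e, d e u + ∑ e, d e v * ∑ i, d e i) + n w +
          Fintype.card {e : Fin K // ∀ i, d e i ≠ 0 → i = u ∨ i = v ∨ i = w} ≤ n u + n v + 1) ∨
      ∀ s : Fin K → ℂ, (∀ e, s e ≠ 0 → d e u = 1 ∧ d e v = 1) → s ≠ 0 →
        ∀ x : ∀ i, Fin (n i) → ℂ, (∀ i, x i ≠ 0) →
          ∑ e, d e u + ∑ e, d e v * ∑ i, d e i ≤ (∑ e, s e • mfR (F e) u v x).rank)
    (hsm : ∀ z : ∀ v, Fin (n v) → ℂ, (∀ v, z v ≠ 0) → Zr F z →
      LinearIndependent ℂ (fun (e : Fin K) (v : Fin (m + 1)) => cf F e v z))
    (ψ : (∀ v, Fin (n v) → ℝ) → ℝ) (S : Finset Nat.Primes)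
    (φ : ∀ p : Nat.Primes, (∀ v, Fin (n v) → ℚ_[p]) → ℝ) (hψ : LFs {x | Zr F x} ψ)
    (hφ : ∀ p ∈ S, LFs {x | Zr F x} (φ p)) :
    (∃ z : ∀ i, Fin (n i) → ℂ, (∀ v, z v ≠ 0) ∧ Zr F z ∧
      ∀ v, LinearIndependent ℂ (fun e : {e : Fin K // d e v = 1} => cf F e.1 v z)) ∧
    ∃ c : ℝ, 0 < c ∧ ∀ G : MvPolynomial (Σ i, Fin (n i)) ℤ,
      (∃ z : ∀ i, Fin (n i) → ℂ, (∀ v, z v ≠ 0) ∧ Zr F z ∧
        (∀ v, LinearIndependent ℂ (fun e : {e : Fin K // d e v = 1} => cf F e.1 v z)) ∧
        evz G (fl z) ≠ 0) →
      Tendsto (fun B : ℝ => ({x : Pt n | (∀ v, Rep (x v)) ∧ Zr F x ∧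
        (∀ v, LinearIndependent ℤ (fun e : {e : Fin K // d e v = 1} => cf F e.1 v x)) ∧
        evz G (fl x) ≠ 0 ∧
        (∏ v, (ht (x v) : ℝ) ^ (n v - ∑ e, d e v)) * Phs ψ S φ x ≤ B}.ncard : ℝ) /
          (B * Real.log B ^ m)) atTop (𝓝 c) :=
  Pool.Agent.T6.H81.BO.Fin15.main Pool.Agent.T6.H81.BG.b3
    (Pool.Agent.T6.H81.BG.c3 (Pool.Agent.T6.H81.BG.r3 Pool.Agent.T6.H81.BG.l3))
    Pool.Agent.T6.H81.BG.p3 Pool.Agent.T6.H81.BG.h3 Pool.Agent.T6.H81.BG.w3
    (Pool.Agent.T6.H81.BG.r3 Pool.Agent.T6.H81.BG.l3)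
    Pool.Agent.T6.H81.BG.z3 Pool.Agent.T6.H81.BG.s3 Pool.Agent.T6.H81.BG.s6
    Pool.Agent.T6.H81.BG.s8 Pool.Agent.T6.H81.BH.z0 Pool.Agent.T6.H81.BH.pol
    Pool.Agent.T6.H81.BH.s6G Pool.Agent.T6.H81.BN.bB
    (Pool.Agent.T6.H81.BN.nI Pool.Agent.T6.H81.BN.lC)
    (Pool.Agent.T6.H81.BN.cH5 Pool.Agent.T6.H81.BN.lC)
    (Pool.Agent.T6.H81.BN.bPQ (Pool.Agent.T6.H81.BN.wL Pool.Agent.T6.H81.BJ.gP
      Pool.Agent.T6.H81.BJ.hC) Pool.Agent.T6.H81.BN.pM)
    (Pool.Agent.T6.H81.BO.bPS (Pool.Agent.T6.H81.BO.pG Pool.Agent.T6.H81.BJ.gP)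
      Pool.Agent.T6.H81.BO.pC)
    Pool.Agent.T6.H81.BN.sS
    (Pool.Agent.T6.H81.BO.sR3 Pool.Agent.T6.H81.BO.sEG)
    F d hd1 hF hd2 hn0 hp hsm ψ S φ hψ hφ

end Pool.Agent.Results.MP_1acd66_nt.SmoothMultilinear
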