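import Mathlib
import Pool.Agent.T6.H81.BG.L3
import Pool.Agent.T6.H81.BG.R3
import Pool.Agent.T6.H81.BG.P3
import Pool.Agent.T6.H81.BG.H3
import Pool.Agent.T6.H81.BG.W3
import Pool.Agent.T6.H81.BG.Z3
import Pool.Agent.T6.H81.BG.S8
import Pool.Agent.T6.H81.BH.Z0
import Pool.Agent.T6.H81.BH.Pol
import Pool.Agent.T6.H81.BH.TR
import Pool.Agent.T6.H81.BH.Pert
import Pool.Agent.T6.H81.BI.RED
import Pool.Agent.T6.H81.BI.PR
import Pool.Agent.T6.H81.BI.W0
import Pool.Agent.T6.H81.BI.SP
import Pool.Agent.T6.H81.BI.CH4
import Pool.Agent.T6.H81.BI.Fin8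
import Pool.Agent.T6.H81.BI.Ne
import Pool.Agent.T6.H97.TC.Tr

/-!
The asymptotic formula `c B (log B) ^ 2` for the number of rational points of bounded anticanonical
height, for all adelic heights, for ALL SMOOTH divisors `X` of type `(1, 1, 1)` in products of three
projective spaces of dimensions at least two over the rational numbers. If not all three dimensions
are two, the formula holds on every dense open subset `V` of an open subset `U`, with the same
constant `c` for all `V`.

* `Pt n`: points with integer coordinates, one vector `x v` of length `n v ≥ 3` for each of the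
  three blocks `v`.
* `F 0`: an integer polynomial, homogeneous of degree one in the coordinates of each block
  (`MultiDeg (F 0) (fun _ => 1)`); `Zr F x`: the point `x` is on `X`.
* `cf F 0 v x`: the vector of the coefficients of `F 0` as a linear form in the coordinates of the
  block `v`, the other coordinates being those of `x`, that is the gradient of `F 0` in the
  coordinates of the block `v`.
* `hsm`: `X` is smooth (Jacobian criterion at the complex points).
* `mf F 0 u v x`: the matrix of `F 0` as a bilinear form in the blocks `u` and `v`; it depends on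
  the third block of `x` only.
* `U`: the points of `X` where the three gradients are not zero and the three matrices have rank at
  least three. (Where one of the gradients vanishes, the fibre of `X` over the point of the product
  of the two other projective spaces is a whole projective space. Where one of the matrices has
  rank two, the fibre of `X` over the point of the third projective space has a bigger Picard group
  than a general fibre. The points of these fibres are to be left out in the conjecture.)
* `G`: any polynomial which is not zero at some complex point of `X` where the three gradients are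
  not zero; in the case of three projective planes, only `G = 1`. There is a complex point where
  the three gradients are not zero (first part of the theorem), so that `G = 1` is allowed.
* `LFs X φ`: `φ` is a positive continuous function on the points over `K`, the real or the `p`-adic
  numbers, of the variety `X`. `Phs ψ S φ x` is the product of `ψ` and the `φ p`, `p ∈ S`, at the
  point. The anticanonical bundle of `X` is the restriction of `O(n v - 1)_v`, so that the heights
  defined by adelic metrics on it are the functions `∏ v, H(x v) ^ (n v - 1) * Phs ψ S φ x`,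
  `H` the naive height.
* Rational points of the projective spaces are given by normalised primitive integer vectors
  (`Rep`).
-/

namespace Pool.Agent.Results.MP_1acd66_nt.SmoothTrilinear

open Pool.Agent.H548.WM (Rep ht)
open Pool.Agent.H548.TL (evz)
open Pool.Agent.T6.H5.TW (MultiDeg fl)
open Pool.Agent.T6.H81.BG (Pt Zr cf mf LFs Phs)
open Filter Topology

theorem result {n : Fin 3 → ℕ} (hn : ∀ v, 3 ≤ n v)
    (F : Fin 1 → MvPolynomial (Σ i, Fin (n i)) ℤ) (hF : MultiDeg (F 0) (fun _ => 1))
    (hsm : ∀ z : ∀ v, Fin (n v) → ℂ, (∀ v, z v ≠ 0) → Zr F z → ∃ v, cf F 0 v z ≠ 0)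
    (ψ : (∀ v, Fin (n v) → ℝ) → ℝ) (S : Finset Nat.Primes)
    (φ : ∀ p : Nat.Primes, (∀ v, Fin (n v) → ℚ_[p]) → ℝ) (hψ : LFs {x | Zr F x} ψ)
    (hφ : ∀ p ∈ S, LFs {x | Zr F x} (φ p)) :
    (∃ z : ∀ i, Fin (n i) → ℂ, Zr F z ∧ (∀ v, cf F 0 v z ≠ 0)) ∧
    ∃ c : ℝ, 0 < c ∧ ∀ G : MvPolynomial (Σ i, Fin (n i)) ℤ, (G = 1 ∨ ∃ v, 4 ≤ n v) →
      (∃ z : ∀ i, Fin (n i) → ℂ, Zr F z ∧ (∀ v, cf F 0 v z ≠ 0) ∧ evz G (fl z) ≠ 0) →
      Tendsto (fun B : ℝ => ({x : Pt n | (∀ v, Rep (x v)) ∧ Zr F x ∧ (∀ v, cf F 0 v x ≠ 0) ∧
        (∀ u v, u ≠ v → 3 ≤ ((mf F 0 u v x).map (Int.cast : ℤ → ℚ)).rank) ∧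
        evz G (fl x) ≠ 0 ∧
        (∏ v, (ht (x v) : ℝ) ^ (n v - 1)) * Phs ψ S φ x ≤ B}.ncard : ℝ) /
          (B * Real.log B ^ 2)) atTop (𝓝 c) :=
  ⟨Pool.Agent.T6.H81.BI.nonempty_V Pool.Agent.T6.H81.BH.tR hn F hF hsm,
    Pool.Agent.T6.H81.BI.Fin8.main
    Pool.Agent.T6.H81.BG.p3 Pool.Agent.T6.H81.BG.h3 Pool.Agent.T6.H81.BG.w3
    (Pool.Agent.T6.H81.BG.r3 Pool.Agent.T6.H81.BG.l3)
    Pool.Agent.T6.H81.BG.z3 Pool.Agent.T6.H81.BG.s8
    Pool.Agent.T6.H81.BH.z0 Pool.Agent.T6.H81.BH.pol Pool.Agent.T6.H81.BH.tR
    Pool.Agent.T6.H81.BH.pert Pool.Agent.T6.H81.BI.rED Pool.Agent.T6.H81.BI.pR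
    Pool.Agent.T6.H81.BI.w0
    (Pool.Agent.T6.H81.BI.cH4 Pool.Agent.T6.H81.BI.w0 Pool.Agent.T6.H81.BI.sP)
    Pool.Agent.T6.H97.TC.asy222 hn F hF hsm ψ S φ hψ hφ⟩

end Pool.Agent.Results.MP_1acd66_nt.SmoothTrilinear
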